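import Pool.Agent.Helper71.PR.Goals

/-!
# Packet PR-NRM (MP_af9e5e_al): density with frames of determinant one
-/

set_option autoImplicit false

namespace Pool.Agent.Helper59.PR

open Matrix Filter Topology Pool.Agent.Helper71.PR

theorem inv_diag_eq {n : ℕ} (k : Mt n) (hk : k.det ≠ 0) (δ μ : Fin n → ℝ) (hδ : ∀ i, δ i ≠ 0) :
    (k * diagonal δ) * diagonal μ * (k * diagonal δ)⁻¹ = k * diagonal μ * k⁻¹ := by
  have hkk : k * k⁻¹ = 1 := Matrix.mul_nonsing_inv k (isUnit_iff_ne_zero.2 hk)
  have hdd : diagonal δ * diagonal (fun i => (δ i)⁻¹) = (1 : Mt n) := by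
    rw [Matrix.diagonal_mul_diagonal, ← Matrix.diagonal_one]
    congr 1
    funext i
    exact mul_inv_cancel₀ (hδ i)
  have h1 : (k * diagonal δ)⁻¹ = diagonal (fun i => (δ i)⁻¹) * k⁻¹ := by
    apply Matrix.inv_eq_right_inv
    calc k * diagonal δ * (diagonal (fun i => (δ i)⁻¹) * k⁻¹)
        = k * (diagonal δ * diagonal (fun i => (δ i)⁻¹)) * k⁻¹ := by simp only [Matrix.mul_assoc]
      _ = 1 := by rw [hdd, Matrix.mul_one, hkk]
  rw [h1]
  calc k * diagonal δ * diagonal μ * (diagonal (fun i => (δ i)⁻¹) * k⁻¹)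
      = k * (diagonal δ * diagonal μ * diagonal (fun i => (δ i)⁻¹)) * k⁻¹ := by simp only [Matrix.mul_assoc]
    _ = k * diagonal μ * k⁻¹ := by
      congr 2
      rw [Matrix.diagonal_mul_diagonal, Matrix.diagonal_mul_diagonal]
      congr 1
      funext i
      field_simp [hδ i]

theorem flat_diag {n : ℕ} {Γ : Subgroup (SLn n)} (k : Mt n) (hk : k.det ≠ 0) (δ : Fin n → ℝ) (hδ : ∀ i, δ i ≠ 0)
    (h : Flat Γ k) : Flat Γ (k * diagonal δ) := by
  obtain ⟨R, hR⟩ := h
  refine ⟨R, fun y hy => ?_⟩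
  obtain ⟨γ, hγ, μ, h1, h2⟩ := hR y hy
  exact ⟨γ, hγ, μ, by rw [h1, inv_diag_eq k hk δ μ hδ], h2⟩

theorem nrm : G_NRM := by
  intro n hn Γ hD g ε hε
  have i0 : Fin n := ⟨0, hn⟩
  -- the normalisation
  let nm : Mt n → Mt n := fun k => k * diagonal (Function.update (fun _ => (1 : ℝ)) i0 (k.det)⁻¹)
  have hg : g.1.det = 1 := g.2
  have hcont : ContinuousAt nm g.1 := by
    have hc : ContinuousAt (fun k : Mt n => (k.det)⁻¹) g.1 := by
      apply ContinuousAt.inv₀
      · exact (Continuous.matrix_det continuous_id).continuousAt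
      · rw [hg]; exact one_ne_zero
    have hu : ContinuousAt (fun k : Mt n => Function.update (fun _ : Fin n => (1 : ℝ)) i0 (k.det)⁻¹) g.1 := by
      exact ContinuousAt.update continuousAt_const i0 hc
    have hd : ContinuousAt (fun k : Mt n => (diagonal (Function.update (fun _ : Fin n => (1 : ℝ)) i0 (k.det)⁻¹) : Mt n)) g.1 := by
      have : Continuous (fun v : Fin n → ℝ => (diagonal v : Mt n)) := Continuous.matrix_diagonal continuous_id
      exact ContinuousAt.comp (g := fun v : Fin n → ℝ => (diagonal v : Mt n)) this.continuousAt hu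
    exact ContinuousAt.mul continuousAt_id hd
  have hval : nm g.1 = g.1 := by
    show g.1 * diagonal (Function.update (fun _ => (1 : ℝ)) i0 (g.1.det)⁻¹) = g.1
    rw [hg, inv_one]
    have : Function.update (fun _ : Fin n => (1 : ℝ)) i0 1 = fun _ => 1 := by
      exact Function.update_eq_self i0 (fun _ : Fin n => (1 : ℝ))
    rw [this, Matrix.diagonal_one, Matrix.mul_one]
  -- a neighbourhood on which all entries are close
  have hnear : ∀ᶠ k in 𝓝 g.1, near (nm k) g.1 ε := by
    have : ∀ i j, ∀ᶠ k in 𝓝 g.1, |nm k i j - g.1 i j| ≤ ε := by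
      intro i j
      have hij : ContinuousAt (fun k => nm k i j) g.1 := by
        have : Continuous (fun A : Mt n => A i j) := continuous_id.matrix_elem i j
        exact ContinuousAt.comp (g := fun A : Mt n => A i j) this.continuousAt hcont
      have h2 : Tendsto (fun k => |nm k i j - g.1 i j|) (𝓝 g.1) (𝓝 0) := by
        have h3 : Tendsto (fun k => nm k i j - g.1 i j) (𝓝 g.1) (𝓝 (nm g.1 i j - g.1 i j)) :=
          Tendsto.sub hij tendsto_const_nhds
        rw [hval, sub_self] at h3
        have := h3.abs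
        rwa [abs_zero] at this
      exact (h2.eventually (ge_mem_nhds hε))
    have h4 := (eventually_all (l := 𝓝 g.1)).2 fun i => (eventually_all (l := 𝓝 g.1)).2 fun j => this i j
    exact h4
  -- a uniform size
  have hex : ∃ η > 0, ∀ k : Mt n, near k g.1 η → near (nm k) g.1 ε := by
    by_contra hcon
    push Not at hcon
    have hpos : ∀ m : ℕ, (0 : ℝ) < 1 / ((m : ℝ) + 1) := fun m => by positivity
    choose k hk1 hk2 using fun m : ℕ => hcon (1 / ((m : ℝ) + 1)) (hpos m)
    have hlim : Tendsto k atTop (𝓝 g.1) := by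
      refine tendsto_pi_nhds.2 fun i => tendsto_pi_nhds.2 fun j => ?_
      refine tendsto_iff_norm_sub_tendsto_zero.2 ?_
      refine squeeze_zero (fun _ => norm_nonneg _) (fun m => ?_) tendsto_one_div_add_atTop_nhds_zero_nat
      exact hk1 m i j
    obtain ⟨m, hm⟩ := (hlim.eventually hnear).exists
    exact hk2 m hm
  obtain ⟨η, hη, hηk⟩ := hex
  obtain ⟨k, hk, hF, hkn⟩ := hD g.1 (by rw [hg]; exact one_ne_zero) η hη
  have hδ : ∀ i, Function.update (fun _ : Fin n => (1 : ℝ)) i0 (k.det)⁻¹ i ≠ 0 := by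
    intro i
    by_cases h : i = i0
    · subst h
      rw [Function.update_self]
      exact inv_ne_zero hk
    · rw [Function.update_of_ne h]
      exact one_ne_zero
  have hdet : (nm k).det = 1 := by
    show (k * diagonal (Function.update (fun _ => (1 : ℝ)) i0 (k.det)⁻¹)).det = 1
    rw [Matrix.det_mul, Matrix.det_diagonal, Finset.prod_update_of_mem (Finset.mem_univ i0)]
    rw [Finset.prod_const_one, mul_one, mul_inv_cancel₀ hk]
  exact ⟨⟨nm k, hdet⟩, flat_diag k hk _ hδ hF, hηk k hkn⟩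

end Pool.Agent.Helper59.PR
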